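import Pool.Agent.Helper9.QP.Exp

/-!
Core theorem: a tree and a graph with a narrow vertex order.
-/

namespace Pool.Agent.Helper9.QP

open SimpleGraph

variable {V : Type*}

/-- The vertex order `Y` (with first vertex `o`) is narrow for `G`: whenever three pairwise disjoint
edges `a₁b₁`, `a₂b₂`, `a₃b₃` of `G` pass over a common cut of the order, with lower ends `a₁, a₂, a₃`
and upper ends `b₁ > b₂ > b₃`, then `a₁` or `a₂` is the first vertex `o`. -/
def Narrow (G : SimpleGraph V) (o : V) (Y : V → ℕ) : Prop :=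
  Function.Injective Y ∧ (∀ v, v ≠ o → Y o < Y v) ∧
    ∀ a₁ b₁ a₂ b₂ a₃ b₃, G.Adj a₁ b₁ → G.Adj a₂ b₂ → G.Adj a₃ b₃ →
      a₁ ≠ a₂ → a₁ ≠ a₃ → a₂ ≠ a₃ → Y b₃ < Y b₂ → Y b₂ < Y b₁ →
      Y a₁ < Y b₃ → Y a₂ < Y b₃ → Y a₃ < Y b₃ → a₁ = o ∨ a₂ = o

theorem core [Finite V] {T G : SimpleGraph V} (hT : T.IsTree) {o : V} {Y : V → ℕ}
    (hG : Narrow G o Y) : ∃ P : V → ℝ × ℝ, IsQuasiPlanar T P ∧ IsQuasiPlanar G P := by
  obtain ⟨hYi, -, hN⟩ := hG
  obtain ⟨X, hXi, hXo, hp⟩ := srule hT o Y hYi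
  obtain ⟨M, hM, hXM⟩ := exists_M X
  refine ⟨pt X Y M, ⟨isDrawing_pt hXi hYi hM hXM T, noCrossing_of_plane2 hXi hYi hM hXM hp⟩,
    ⟨isDrawing_pt hXi hYi hM hXM G, ?_⟩⟩
  rintro ⟨e, h1, h2⟩
  obtain ⟨a, b, hab, hY, hc⟩ := orient Y hYi e h1 h2
  have hk : ∀ i j, i ≠ j → Y (b j) < Y (b i) → K X Y (a i) (b i) (a j) (b j) := by
    intro i j hij hlt
    rcases K_of_crosses hXi hYi hM hXM (hY i) (hY j) (hc i j hij) with h3 | h3
    · exact h3
    · have := h3.2.2.1
      omega
  have hbne : ∀ i j, i ≠ j → Y (b i) ≠ Y (b j) := by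
    intro i j hij h
    exact (disjoint_of_crosses hXi hYi hM hXM (hab i).ne (hab j).ne (hc i j hij)).2.2.2 (hYi h)
  have hane : ∀ i j, i ≠ j → a i ≠ a j := by
    intro i j hij
    exact (disjoint_of_crosses hXi hYi hM hXM (hab i).ne (hab j).ne (hc i j hij)).1
  have hno : ∀ i j, i ≠ j → Y (b j) < Y (b i) → a i ≠ o := by
    intro i j hij hlt h
    have := (hk i j hij hlt).2.2.2.2
    rw [h] at this
    have h3 : ∀ v, X o ≤ X v := fun v => by
      by_cases hv : v = o
      · rw [hv]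
      · exact (hXo v hv).le
    have h4 := h3 (a j)
    have h5 := h3 (b j)
    omega
  -- three indices sorted by the height of the upper end
  have main : ∀ i j k : Fin 3, i ≠ j → i ≠ k → j ≠ k → Y (b k) < Y (b j) → Y (b j) < Y (b i) →
      False := by
    intro i j k hij hik hjk h3 h4
    have k1 := (hk i k hik (h3.trans h4)).2.2.2.1
    have k2 := (hk j k hjk h3).2.2.2.1
    rcases hN (a i) (b i) (a j) (b j) (a k) (b k) (hab i) (hab j) (hab k) (hane i j hij)
      (hane i k hik) (hane j k hjk) h3 h4 k1 k2 (hY k) with h5 | h5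
    · exact hno i j hij h4 h5
    · exact hno j k hjk h3 h5
  have n01 := hbne 0 1 (by decide)
  have n02 := hbne 0 2 (by decide)
  have n12 := hbne 1 2 (by decide)
  rcases lt_or_gt_of_ne n01 with h01 | h01 <;> rcases lt_or_gt_of_ne n02 with h02 | h02 <;>
    rcases lt_or_gt_of_ne n12 with h12 | h12
  · exact main 2 1 0 (by decide) (by decide) (by decide) h01 h12
  · exact main 1 2 0 (by decide) (by decide) (by decide) h02 h12
  · omega
  · exact main 1 0 2 (by decide) (by decide) (by decide) h02 h01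
  · exact main 2 0 1 (by decide) (by decide) (by decide) h01 h02
  · omega
  · exact main 0 2 1 (by decide) (by decide) (by decide) h12 h02
  · exact main 0 1 2 (by decide) (by decide) (by decide) h12 h01

end Pool.Agent.Helper9.QP
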