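import Mathlib

/-!
Straight-line drawings in the plane, crossings, quasi planar drawings.
-/

namespace Pool.Agent.Helper9.QP

/-- `P` is a straight-line drawing of `G`: the vertices are mapped injectively to points of the
plane and no vertex lies on the closed segment representing an edge, except for the two end
vertices of that edge. -/
def IsDrawing {V : Type*} (G : SimpleGraph V) (P : V → ℝ × ℝ) : Prop :=
  Function.Injective P ∧
    ∀ u v w, G.Adj u v → P w ∈ segment ℝ (P u) (P v) → w = u ∨ w = v

/-- The two different edges `ab` and `cd` cross in the drawing `P`: the corresponding segments share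
a point that is interior to both. -/
def Crosses {V : Type*} (P : V → ℝ × ℝ) (a b c d : V) : Prop :=
  s(a, b) ≠ s(c, d) ∧ (openSegment ℝ (P a) (P b) ∩ openSegment ℝ (P c) (P d)).Nonempty

/-- In the drawing `P` of `G` there are no `m` pairwise crossing edges. -/
def NoCrossingFamily {V : Type*} (G : SimpleGraph V) (P : V → ℝ × ℝ) (m : ℕ) : Prop :=
  ¬ ∃ e : Fin m → V × V, (∀ i, G.Adj (e i).1 (e i).2) ∧
    ∀ i j, i ≠ j → Crosses P (e i).1 (e i).2 (e j).1 (e j).2

/-- `P` is a quasi planar straight-line drawing of `G`: a straight-line drawing without three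
pairwise crossing edges. -/
def IsQuasiPlanar {V : Type*} (G : SimpleGraph V) (P : V → ℝ × ℝ) : Prop :=
  IsDrawing G P ∧ NoCrossingFamily G P 3

end Pool.Agent.Helper9.QP
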