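import Pool.Agent.Helper9.QP.Rooted

/-!
The orders used in the drawings.
-/

namespace Pool.Agent.Helper9.QP

open SimpleGraph

variable {V : Type*}

/-- Combinatorial form of: the ascending edges do not cross each other and the descending edges do
not cross each other, in the drawing with abscissae `X` and super exponential ordinates `Y`. -/
def Plane2 (G : SimpleGraph V) (X Y : V → ℕ) : Prop :=
  ∀ a b c d, G.Adj a b → G.Adj c d → Y a < Y b → Y c < Y d → Y d < Y b → Y a < Y d →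
    ¬ (X a < X b ∧ X c < X a ∧ X a < X d) ∧ ¬ (X b < X a ∧ X d < X a ∧ X a < X c)

theorem par_of_lt {T : SimpleGraph V} {r : V} {par : V → V} {dep : V → ℕ}
    (hR : Rooted T r par dep) {Y : V → ℕ} (hY : ∀ v, v ≠ r → Y (par v) < Y v) {a b : V}
    (hab : T.Adj a b) (h : Y a < Y b) : b ≠ r ∧ par b = a := by
  rcases hR.adj_imp a b hab with h1 | ⟨h1, h2⟩
  · exact h1
  · have := hY a h1
    rw [h2] at this
    omega

/-- Any abscissae, any tree: ordinates exist. -/
theorem five [Finite V] {T : SimpleGraph V} (hT : T.IsTree) (X : V → ℕ) :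
    ∃ Y : V → ℕ, Function.Injective Y ∧ Plane2 T X Y := by
  classical
  haveI := hT.connected.nonempty
  obtain ⟨r⟩ := hT.connected.nonempty
  obtain ⟨par, hR⟩ := exists_rooted hT r
  obtain ⟨Y, hYi, -, hYp, hYg⟩ := sweep r par (fun S => Down r par S)
    (fun c' S => ∀ c, c ∉ S → par c ∈ S →
      (X (par c) < X c → X (par c') < X c' → X (par c) ≤ X (par c')) ∧
      (X c < X (par c) → X c' < X (par c') → X (par c') ≤ X (par c)))
    (by
      intro v hv hvr
      exact absurd hv hvr)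
    (by
      intro S hS hr hne
      obtain ⟨c₀, hc₀, hpc₀⟩ := exists_pending hR S hr hne
      by_cases h : ({c | c ∉ S ∧ par c ∈ S ∧ X (par c) < X c} : Set V).Nonempty
      · obtain ⟨c', ⟨h1, h2, h3⟩, h4⟩ := Set.exists_max_image _ (fun c => X (par c))
          (Set.toFinite {c | c ∉ S ∧ par c ∈ S ∧ X (par c) < X c}) h
        refine ⟨c', h1, h2, fun c hc hpc => ⟨fun h5 _ => h4 c ⟨hc, hpc, h5⟩, fun _ h6 => ?_⟩,
          down_insert hS h2⟩
        omega
      · obtain ⟨c', ⟨h1, h2⟩, h4⟩ := Set.exists_min_image _ (fun c => X (par c))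
          (Set.toFinite {c | c ∉ S ∧ par c ∈ S}) ⟨c₀, hc₀, hpc₀⟩
        refine ⟨c', h1, h2, fun c hc hpc => ⟨fun h5 _ => ?_, fun _ _ => h4 c ⟨hc, hpc⟩⟩,
          down_insert hS h2⟩
        exact absurd ⟨c, hc, hpc, h5⟩ h)
  refine ⟨Y, hYi, ?_⟩
  intro a b c d hab hcd h1 h2 h3 h4
  obtain ⟨hb, hpb⟩ := par_of_lt hR hYp hab h1
  obtain ⟨hd, hpd⟩ := par_of_lt hR hYp hcd h2
  obtain ⟨g1, g2⟩ := hYg d hd b (by simp only [Set.mem_setOf_eq]; omega)
    (by rw [hpb]; exact h4)
  rw [hpb, hpd] at g1 g2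
  constructor
  · rintro ⟨h5, h6, h7⟩
    have := g1 h5 (by omega)
    omega
  · rintro ⟨h5, h6, h7⟩
    have := g2 h5 (by omega)
    omega

/-- Any ordinates, any tree with any root: abscissae exist, with the root leftmost. -/
theorem srule [Finite V] {T : SimpleGraph V} (hT : T.IsTree) (o : V) (Y : V → ℕ)
    (hY : Function.Injective Y) :
    ∃ X : V → ℕ, Function.Injective X ∧ (∀ v, v ≠ o → X o < X v) ∧ Plane2 T X Y := by
  classical
  obtain ⟨par, hR⟩ := exists_rooted hT o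
  obtain ⟨X, hXi, hXo, hXp, hXg⟩ := sweep o par (fun S => Down o par S)
    (fun c' S => ∀ c, c ∉ S → par c ∈ S →
      (Y (par c) < Y c → Y c ≤ Y c') ∧
      (Y c < Y (par c) → Y c' < Y (par c') → Y (par c') ≤ Y (par c)))
    (by
      intro v hv hvr
      exact absurd hv hvr)
    (by
      intro S hS hr hne
      obtain ⟨c₀, hc₀, hpc₀⟩ := exists_pending hR S hr hne
      by_cases h : ({c | c ∉ S ∧ par c ∈ S ∧ Y (par c) < Y c} : Set V).Nonempty
      · obtain ⟨c', ⟨h1, h2, h3⟩, h4⟩ := Set.exists_max_image _ (fun c => Y c)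
          (Set.toFinite {c | c ∉ S ∧ par c ∈ S ∧ Y (par c) < Y c}) h
        refine ⟨c', h1, h2, fun c hc hpc => ⟨fun h5 => h4 c ⟨hc, hpc, h5⟩, fun _ h6 => ?_⟩,
          down_insert hS h2⟩
        omega
      · obtain ⟨c', ⟨h1, h2⟩, h4⟩ := Set.exists_min_image _ (fun c => Y (par c))
          (Set.toFinite {c | c ∉ S ∧ par c ∈ S}) ⟨c₀, hc₀, hpc₀⟩
        refine ⟨c', h1, h2, fun c hc hpc => ⟨fun h5 => ?_, fun _ _ => h4 c ⟨hc, hpc⟩⟩,
          down_insert hS h2⟩
        exact absurd ⟨c, hc, hpc, h5⟩ h)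
  refine ⟨X, hXi, hXo, ?_⟩
  intro a b c d hab hcd h1 h2 h3 h4
  constructor
  · rintro ⟨h5, h6, h7⟩
    obtain ⟨hd, hpd⟩ := par_of_lt hR hXp hcd (by omega)
    have ha : a ≠ o := by
      rintro rfl
      have := hXo c (by rintro rfl; omega)
      omega
    obtain ⟨g1, g2⟩ := hXg a ha d (by simp only [Set.mem_setOf_eq]; omega)
      (by rw [hpd]; exact h6)
    rw [hpd] at g1
    have := g1 h2
    omega
  · rintro ⟨h5, h6, h7⟩
    obtain ⟨ha, hpa⟩ := par_of_lt hR hXp hab.symm h5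
    obtain ⟨hc, hpc⟩ := par_of_lt hR hXp hcd.symm (by omega)
    obtain ⟨g1, g2⟩ := hXg a ha c (by simp only [Set.mem_setOf_eq]; omega)
      (by rw [hpc]; exact h6)
    rw [hpa, hpc] at g2
    have := g2 h2 h1
    omega

end Pool.Agent.Helper9.QP
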