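import Pool.Agent.Helper9.QP.Defs
import Pool.Agent.Helper9.QP.Orders

/-!
The drawings with super exponential ordinates.
-/

namespace Pool.Agent.Helper9.QP

open SimpleGraph

variable {V : Type*}

/-- The point with abscissa `X v` and ordinate `M ^ Y v`. -/
noncomputable def pt (X Y : V → ℕ) (M : ℝ) (v : V) : ℝ × ℝ := ((X v : ℝ), M ^ Y v)

theorem mem_open {A B z : ℝ × ℝ} (h : z ∈ openSegment ℝ A B) :
    ∃ t : ℝ, 0 < t ∧ t < 1 ∧ z.1 = A.1 + t * (B.1 - A.1) ∧ z.2 = A.2 + t * (B.2 - A.2) := by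
  obtain ⟨s, t, hs, ht, hst, rfl⟩ := h
  refine ⟨t, ht, by linarith, ?_, ?_⟩
  · simp only [Prod.fst_add, Prod.smul_fst, smul_eq_mul]
    have : s = 1 - t := by linarith
    rw [this]; ring
  · simp only [Prod.snd_add, Prod.smul_snd, smul_eq_mul]
    have : s = 1 - t := by linarith
    rw [this]; ring

/-- A point of the open segment from `a` to the much higher `b` which is not above the level of `d`
has nearly the abscissa of `a`. -/
theorem near {X Y : V → ℕ} {M : ℝ} (hM : 1 < M) (hX : ∀ v, (X v : ℝ) < M) {a b : V} {z : ℝ × ℝ}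
    (hab : Y a < Y b) {m : ℕ} (hm : m < Y b) (hz : z ∈ openSegment ℝ (pt X Y M a) (pt X Y M b))
    (hzm : z.2 ≤ M ^ m) : |z.1 - X a| < 1 := by
  obtain ⟨t, ht0, ht1, h1, h2⟩ := mem_open hz
  simp only [pt] at h1 h2
  have hM0 : (0:ℝ) < M := by linarith
  have e1 : M ^ m * M ≤ M ^ Y b := by
    rw [← pow_succ]
    exact pow_le_pow_right₀ hM.le (by omega)
  have e2 : M ^ Y a ≤ M ^ Y b := pow_le_pow_right₀ hM.le hab.le
  have pa : 0 < M ^ Y a := pow_pos hM0 _
  have pm : 0 < M ^ m := pow_pos hM0 _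
  have e3 : t * M ^ Y b < M ^ m := by
    have : z.2 = (1 - t) * M ^ Y a + t * M ^ Y b := by rw [h2]; ring
    have h3 : 0 < (1 - t) * M ^ Y a := mul_pos (by linarith) pa
    linarith
  have e4 : t * M < 1 := by
    have : t * (M ^ m * M) < M ^ m := lt_of_le_of_lt (mul_le_mul_of_nonneg_left e1 ht0.le) e3
    have h5 : (t * M) * M ^ m < 1 * M ^ m := by linarith
    exact lt_of_mul_lt_mul_right h5 pm.le
  have e5 : |(X b : ℝ) - X a| < M := by
    have h6 := hX a
    have h7 := hX b
    have h8 : (0:ℝ) ≤ X a := Nat.cast_nonneg _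
    have h9 : (0:ℝ) ≤ X b := Nat.cast_nonneg _
    rw [abs_lt]
    constructor <;> linarith
  rw [h1, add_sub_cancel_left, abs_mul, abs_of_pos ht0]
  calc t * |(X b : ℝ) - X a| ≤ t * M := mul_le_mul_of_nonneg_left e5.le ht0.le
    _ < 1 := e4

theorem height_lt {X Y : V → ℕ} {M : ℝ} (hM : 1 < M) {c d : V} {z : ℝ × ℝ}
    (hcd : Y c < Y d) (hz : z ∈ openSegment ℝ (pt X Y M c) (pt X Y M d)) :
    M ^ Y c < z.2 ∧ z.2 < M ^ Y d := by
  obtain ⟨t, ht0, ht1, h1, h2⟩ := mem_open hz
  simp only [pt] at h1 h2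
  have : M ^ Y c < M ^ Y d := pow_lt_pow_right₀ hM hcd
  rw [h2]
  constructor
  · have := mul_pos ht0 (sub_pos.2 this)
    linarith
  · have := mul_pos (sub_pos.2 ht1) (sub_pos.2 this)
    linarith

theorem between {X Y : V → ℕ} {M : ℝ} {c d : V} {z : ℝ × ℝ}
    (hcd : X c < X d) (hz : z ∈ openSegment ℝ (pt X Y M c) (pt X Y M d)) :
    (X c : ℝ) < z.1 ∧ z.1 < X d := by
  obtain ⟨t, ht0, ht1, h1, h2⟩ := mem_open hz
  simp only [pt] at h1 h2
  have : (X c : ℝ) < X d := by exact_mod_cast hcd
  rw [h1]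
  constructor
  · have := mul_pos ht0 (sub_pos.2 this)
    linarith
  · have := mul_pos (sub_pos.2 ht1) (sub_pos.2 this)
    linarith

theorem pt_injective {X Y : V → ℕ} (hX : Function.Injective X) (M : ℝ) :
    Function.Injective (pt X Y M) := by
  intro u v h
  have := congrArg Prod.fst h
  simp only [pt] at this
  exact hX (by exact_mod_cast this)

/-- No vertex is inside a segment between two other vertices. -/
theorem not_mem_open {X Y : V → ℕ} (hXi : Function.Injective X) (hYi : Function.Injective Y)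
    {M : ℝ} (hM : 1 < M) (hX : ∀ v, (X v : ℝ) < M) {u v w : V} (huv : u ≠ v) :
    pt X Y M w ∉ openSegment ℝ (pt X Y M u) (pt X Y M v) := by
  have main : ∀ u v, Y u < Y v → pt X Y M w ∉ openSegment ℝ (pt X Y M u) (pt X Y M v) := by
    intro u v h hz
    have hh := height_lt hM h hz
    simp only [pt] at hh
    have h1 : Y w < Y v := by
      by_contra h2
      have := pow_le_pow_right₀ hM.le (not_lt.1 h2)
      linarith [hh.2]
    have h3 := near hM hX h h1 hz (by simp [pt])
    simp only [pt] at h3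
    have h4 : X w = X u := by
      rw [abs_lt] at h3
      have h5 : (X w : ℝ) < X u + 1 := by linarith
      have h6 : (X u : ℝ) < X w + 1 := by linarith
      have h7 : X w < X u + 1 := by exact_mod_cast h5
      have h8 : X u < X w + 1 := by exact_mod_cast h6
      omega
    have h5 := hXi h4
    rw [h5] at hh
    linarith [hh.1]
  rcases lt_trichotomy (Y u) (Y v) with h | h | h
  · exact main u v h
  · exact absurd (hYi h) huv
  · rw [openSegment_symm]
    exact main v u h

theorem isDrawing_pt {X Y : V → ℕ} (hXi : Function.Injective X) (hYi : Function.Injective Y)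
    {M : ℝ} (hM : 1 < M) (hX : ∀ v, (X v : ℝ) < M) (G : SimpleGraph V) :
    IsDrawing G (pt X Y M) := by
  refine ⟨pt_injective hXi M, ?_⟩
  intro u v w huv hw
  by_contra h
  push Not at h
  refine not_mem_open hXi hYi hM hX huv.ne (w := w) ?_
  exact mem_openSegment_of_ne_left_right (fun h1 => h.1 (pt_injective hXi M h1).symm)
    (fun h1 => h.2 (pt_injective hXi M h1).symm) hw

theorem share {A B D z : ℝ × ℝ} (h1 : z ∈ openSegment ℝ A B) (h2 : z ∈ openSegment ℝ A D) :
    D ∈ segment ℝ A B ∨ B ∈ segment ℝ A D := by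
  obtain ⟨s, hs0, hs1, e1, e2⟩ := mem_open h1
  obtain ⟨t, ht0, ht1, f1, f2⟩ := mem_open h2
  have key : ∀ (B D : ℝ × ℝ) (s t : ℝ), 0 < s → 0 < t → s ≤ t →
      A.1 + s * (B.1 - A.1) = A.1 + t * (D.1 - A.1) →
      A.2 + s * (B.2 - A.2) = A.2 + t * (D.2 - A.2) → D ∈ segment ℝ A B := by
    intro B D s t hs ht hst g1 g2
    refine ⟨1 - s / t, s / t, ?_, by positivity, by ring, ?_⟩
    · rw [sub_nonneg, div_le_one ht]
      exact hst
    · apply Prod.ext
      · simp only [Prod.fst_add, Prod.smul_fst, smul_eq_mul]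
        field_simp
        linarith
      · simp only [Prod.snd_add, Prod.smul_snd, smul_eq_mul]
        field_simp
        linarith
  rcases le_total s t with h | h
  · left
    exact key B D s t hs0 ht0 h (by rw [← e1, ← f1]) (by rw [← e2, ← f2])
  · right
    exact key D B t s ht0 hs0 h (by rw [← e1, ← f1]) (by rw [← e2, ← f2])

/-- Crossing edges have four different end vertices. -/
theorem disjoint_of_crosses {X Y : V → ℕ} (hXi : Function.Injective X)
    (hYi : Function.Injective Y) {M : ℝ} (hM : 1 < M) (hX : ∀ v, (X v : ℝ) < M) {a b c d : V}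
    (hab : a ≠ b) (hcd : c ≠ d) (h : Crosses (pt X Y M) a b c d) :
    a ≠ c ∧ a ≠ d ∧ b ≠ c ∧ b ≠ d := by
  have hi := pt_injective (Y := Y) hXi M
  have key : ∀ a b d, a ≠ b → a ≠ d → b ≠ d →
      ¬ (openSegment ℝ (pt X Y M a) (pt X Y M b) ∩
        openSegment ℝ (pt X Y M a) (pt X Y M d)).Nonempty := by
    intro a b d h1 h2 h3 ⟨z, hz1, hz2⟩
    rcases share hz1 hz2 with h4 | h4
    · exact not_mem_open hXi hYi hM hX h1 (w := d)
        (mem_openSegment_of_ne_left_right (fun h => h2 (hi h)) (fun h => h3 (hi h)) h4)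
    · exact not_mem_open hXi hYi hM hX h2 (w := b)
        (mem_openSegment_of_ne_left_right (fun h => h1 (hi h)) (fun h => h3 (hi h).symm) h4)
  obtain ⟨hne, hc⟩ := h
  refine ⟨?_, ?_, ?_, ?_⟩
  · rintro rfl
    exact key a b d hab hcd (by rintro rfl; exact hne rfl) hc
  · rintro rfl
    rw [openSegment_symm ℝ (pt X Y M c)] at hc
    exact key a b c hab hcd.symm (by rintro rfl; exact hne Sym2.eq_swap) hc
  · rintro rfl
    rw [openSegment_symm ℝ (pt X Y M a)] at hc
    exact key b a d hab.symm hcd (by rintro rfl; exact hne Sym2.eq_swap) hc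
  · rintro rfl
    rw [openSegment_symm ℝ (pt X Y M a), openSegment_symm ℝ (pt X Y M c)] at hc
    exact key b a c hab.symm hcd.symm (by rintro rfl; exact hne rfl) hc

/-- The combinatorial crossing condition for edges `ab`, `cd`, with `b` the highest vertex. -/
def K (X Y : V → ℕ) (a b c d : V) : Prop :=
  Y a < Y b ∧ Y c < Y d ∧ Y d < Y b ∧ Y a < Y d ∧
    ((X c < X a ∧ X a < X d) ∨ (X d < X a ∧ X a < X c))

theorem K_of_crosses {X Y : V → ℕ} (hXi : Function.Injective X) (hYi : Function.Injective Y)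
    {M : ℝ} (hM : 1 < M) (hX : ∀ v, (X v : ℝ) < M) {a b c d : V}
    (hab : Y a < Y b) (hcd : Y c < Y d) (h : Crosses (pt X Y M) a b c d) :
    K X Y a b c d ∨ K X Y c d a b := by
  have hab' : a ≠ b := by rintro rfl; exact lt_irrefl _ hab
  have hcd' : c ≠ d := by rintro rfl; exact lt_irrefl _ hcd
  obtain ⟨d1, d2, d3, d4⟩ := disjoint_of_crosses hXi hYi hM hX hab' hcd' h
  have main : ∀ a b c d, Y a < Y b → Y c < Y d → Y d < Y b → a ≠ c → a ≠ d →
      (openSegment ℝ (pt X Y M a) (pt X Y M b) ∩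
        openSegment ℝ (pt X Y M c) (pt X Y M d)).Nonempty → K X Y a b c d := by
    intro a b c d hab hcd hdb hac had ⟨z, hz1, hz2⟩
    have g1 := height_lt hM hab hz1
    have g2 := height_lt hM hcd hz2
    have h1 : Y a < Y d := by
      by_contra h2
      have := pow_le_pow_right₀ hM.le (not_lt.1 h2)
      linarith [g1.1, g2.2]
    have h2 := near hM hX hab hdb hz1 g2.2.le
    rw [abs_lt] at h2
    refine ⟨hab, hcd, hdb, h1, ?_⟩
    have hcd' : c ≠ d := by rintro rfl; exact lt_irrefl _ hcd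
    rcases lt_trichotomy (X c) (X d) with h3 | h3 | h3
    · left
      have h4 := between h3 hz2
      have h5 : (X c : ℝ) < X a + 1 := by linarith [h4.1, h2.2]
      have h6 : (X a : ℝ) < X d + 1 := by linarith [h4.2, h2.1]
      have h7 : X c < X a + 1 := by exact_mod_cast h5
      have h8 : X a < X d + 1 := by exact_mod_cast h6
      have h9 : X a ≠ X c := fun h => hac (hXi h)
      have h10 : X a ≠ X d := fun h => had (hXi h)
      omega
    · exact absurd (hXi h3) hcd'
    · right
      rw [openSegment_symm] at hz2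
      have h4 := between h3 hz2
      have h5 : (X d : ℝ) < X a + 1 := by linarith [h4.1, h2.2]
      have h6 : (X a : ℝ) < X c + 1 := by linarith [h4.2, h2.1]
      have h7 : X d < X a + 1 := by exact_mod_cast h5
      have h8 : X a < X c + 1 := by exact_mod_cast h6
      have h9 : X a ≠ X c := fun h => hac (hXi h)
      have h10 : X a ≠ X d := fun h => had (hXi h)
      omega
  rcases lt_trichotomy (Y d) (Y b) with h1 | h1 | h1
  · left
    exact main a b c d hab hcd h1 d1 d2 h.2
  · exact absurd (hYi h1) d4.symm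
  · right
    refine main c d a b hcd hab h1 d1.symm d3.symm ?_
    rw [Set.inter_comm]
    exact h.2

theorem crosses_swap_left {P : V → ℝ × ℝ} {a b c d : V} (h : Crosses P a b c d) :
    Crosses P b a c d := by
  obtain ⟨h1, h2⟩ := h
  refine ⟨by rwa [Sym2.eq_swap], by rwa [openSegment_symm]⟩

theorem crosses_symm {P : V → ℝ × ℝ} {a b c d : V} (h : Crosses P a b c d) :
    Crosses P c d a b := by
  obtain ⟨h1, h2⟩ := h
  exact ⟨h1.symm, by rwa [Set.inter_comm]⟩

theorem crosses_swap_right {P : V → ℝ × ℝ} {a b c d : V} (h : Crosses P a b c d) :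
    Crosses P a b d c := crosses_symm (crosses_swap_left (crosses_symm h))

/-- Orient all edges of a crossing family by a rank function. -/
theorem orient {G : SimpleGraph V} {P : V → ℝ × ℝ} {m : ℕ} (R : V → ℕ)
    (hR : Function.Injective R) (e : Fin m → V × V) (h1 : ∀ i, G.Adj (e i).1 (e i).2)
    (h2 : ∀ i j, i ≠ j → Crosses P (e i).1 (e i).2 (e j).1 (e j).2) :
    ∃ a b : Fin m → V, (∀ i, G.Adj (a i) (b i)) ∧ (∀ i, R (a i) < R (b i)) ∧
      ∀ i j, i ≠ j → Crosses P (a i) (b i) (a j) (b j) := by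
  classical
  refine ⟨fun i => if R (e i).1 < R (e i).2 then (e i).1 else (e i).2,
    fun i => if R (e i).1 < R (e i).2 then (e i).2 else (e i).1, ?_, ?_, ?_⟩
  · intro i
    simp only
    split_ifs
    · exact h1 i
    · exact (h1 i).symm
  · intro i
    simp only
    split_ifs with h
    · exact h
    · have : R (e i).1 ≠ R (e i).2 := fun h3 => (h1 i).ne (hR h3)
      omega
  · intro i j hij
    simp only
    have h3 := h2 i j hij
    split_ifs
    · exact h3
    · exact crosses_swap_right h3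
    · exact crosses_swap_left h3
    · exact crosses_swap_left (crosses_swap_right h3)

/-- A tree (or any graph) satisfying `Plane2` has no three pairwise crossing edges. -/
theorem noCrossing_of_plane2 {X Y : V → ℕ} (hXi : Function.Injective X)
    (hYi : Function.Injective Y) {M : ℝ} (hM : 1 < M) (hX : ∀ v, (X v : ℝ) < M)
    {G : SimpleGraph V} (hG : Plane2 G X Y) : NoCrossingFamily G (pt X Y M) 3 := by
  rintro ⟨e, h1, h2⟩
  obtain ⟨a, b, hab, hY, hc⟩ := orient Y hYi e h1 h2
  -- two crossing edges are of different types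
  have key : ∀ i j, i ≠ j → ¬ ((X (a i) < X (b i)) ↔ (X (a j) < X (b j))) := by
    have main : ∀ a b c d, G.Adj a b → G.Adj c d → K X Y a b c d →
        ¬ ((X a < X b) ↔ (X c < X d)) := by
      rintro a b c d hab hcd ⟨k1, k2, k3, k4, k5⟩ h
      obtain ⟨p1, p2⟩ := hG a b c d hab hcd k1 k2 k3 k4
      have n1 : X a ≠ X b := fun h => hab.ne (hXi h)
      rcases k5 with k5 | k5
      · have : X c < X d := by omega
        exact p1 ⟨h.2 this, k5.1, k5.2⟩
      · have h3 : ¬ X c < X d := by omega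
        have h4 : ¬ X a < X b := fun h5 => h3 (h.1 h5)
        exact p2 ⟨by omega, k5.1, k5.2⟩
    intro i j hij h
    rcases K_of_crosses hXi hYi hM hX (hY i) (hY j) (hc i j hij) with h3 | h3
    · exact main _ _ _ _ (hab i) (hab j) h3 h
    · exact main _ _ _ _ (hab j) (hab i) h3 h.symm
  have k01 := key 0 1 (by decide)
  have k02 := key 0 2 (by decide)
  have k12 := key 1 2 (by decide)
  tauto

theorem exists_M [Finite V] (X : V → ℕ) : ∃ M : ℝ, 1 < M ∧ ∀ v, (X v : ℝ) < M := by
  obtain ⟨N, hN⟩ := (Set.finite_range X).bddAbove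
  refine ⟨(N : ℝ) + 2, by positivity |> fun h : (0:ℝ) ≤ N => by linarith, fun v => ?_⟩
  have h1 : X v ≤ N := hN ⟨v, rfl⟩
  have h2 : (X v : ℝ) ≤ N := by exact_mod_cast h1
  linarith

end Pool.Agent.Helper9.QP
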