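import Pool.Agent.Helper9.QP.Core

/-!
Heavy last depth first orders: few pairwise disjoint edges over a cut of a tree.
-/

namespace Pool.Agent.Helper9.QP

open SimpleGraph

variable {V : Type*}

/-- The vertices below `v` (including `v`). -/
def below (par : V → V) (dep : V → ℕ) (v : V) : Set V :=
  {w | dep v ≤ dep w ∧ par^[dep w - dep v] w = v}

theorem mem_below_self (par : V → V) (dep : V → ℕ) (v : V) : v ∈ below par dep v := by
  simp [below]

theorem below_child {T : SimpleGraph V} {r : V} {par : V → V} {dep : V → ℕ}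
    (hR : Rooted T r par dep) {c w : V} (hc : c ≠ r) (hw : w ∈ below par dep c) :
    w ∈ below par dep (par c) := by
  obtain ⟨h1, h2⟩ := hw
  have h3 := hR.dep_par c hc
  refine ⟨by omega, ?_⟩
  have h4 : dep w - dep (par c) = (dep w - dep c) + 1 := by omega
  rw [h4, Function.iterate_succ_apply', h2]

theorem below_disjoint {par : V → V} {dep : V → ℕ} {c c' w : V} (hd : dep c = dep c')
    (hw : w ∈ below par dep c) (hw' : w ∈ below par dep c') : c = c' := by
  obtain ⟨h1, h2⟩ := hw
  obtain ⟨h3, h4⟩ := hw'
  rw [hd] at h2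
  rw [← h2, h4]

theorem size_two [Finite V] {T : SimpleGraph V} {r : V} {par : V → V} {dep : V → ℕ}
    (hR : Rooted T r par dep) {c c' : V} (hc : c ≠ r) (hc' : c' ≠ r) (hne : c ≠ c')
    (hp : par c = par c') :
    (below par dep c).ncard + (below par dep c').ncard + 1 ≤ (below par dep (par c)).ncard := by
  classical
  have e1 := hR.dep_par c hc
  have e2 := hR.dep_par c' hc'
  have hd : dep c = dep c' := by rw [e1, e2, hp]
  have h1 : Disjoint (below par dep c) (below par dep c') := by
    rw [Set.disjoint_left]
    intro w hw hw'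
    exact hne (below_disjoint hd hw hw')
  have h2 : par c ∉ below par dep c ∪ below par dep c' := by
    rintro (h | h)
    · have := h.1
      omega
    · have := h.1
      omega
  rw [← Set.ncard_union_eq h1 (Set.toFinite _) (Set.toFinite _),
    ← Set.ncard_insert_of_notMem h2 (Set.toFinite _)]
  refine Set.ncard_le_ncard ?_ (Set.toFinite _)
  intro w hw
  rcases Set.mem_insert_iff.1 hw with rfl | hw | hw
  · exact mem_below_self _ _ _
  · exact below_child hR hc hw
  · rw [hp]
    exact below_child hR hc' hw

theorem size_one [Finite V] {T : SimpleGraph V} {r : V} {par : V → V} {dep : V → ℕ}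
    (hR : Rooted T r par dep) {c : V} (hc : c ≠ r) :
    (below par dep c).ncard + 1 ≤ (below par dep (par c)).ncard := by
  classical
  have e1 := hR.dep_par c hc
  have h2 : par c ∉ below par dep c := by
    intro h
    have := h.1
    omega
  rw [← Set.ncard_insert_of_notMem h2 (Set.toFinite _)]
  refine Set.ncard_le_ncard ?_ (Set.toFinite _)
  intro w hw
  rcases Set.mem_insert_iff.1 hw with rfl | hw
  · exact mem_below_self _ _ _
  · exact below_child hR hc hw

theorem dist_iterate {T : SimpleGraph V} (hT : T.IsTree) {r : V} {par : V → V} {dep : V → ℕ}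
    (hR : Rooted T r par dep) : ∀ k w, k ≤ dep w → T.dist (par^[k] w) w ≤ k := by
  intro k
  induction k with
  | zero =>
    intro w _
    simp
  | succ k ih =>
    intro w hw
    have hwr : w ≠ r := by
      rintro rfl
      rw [hR.dep_root] at hw
      omega
    have h1 := hR.dep_par w hwr
    have h2 := ih (par w) (by omega)
    rw [Function.iterate_succ_apply]
    have h3 : T.dist (par^[k] (par w)) w ≤ T.dist (par^[k] (par w)) (par w) + T.dist (par w) w :=
      hT.connected.dist_triangle
    have h4 : T.dist (par w) w = 1 := by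
      rw [SimpleGraph.dist_eq_one_iff_adj]
      exact (hR.adj_par w hwr).symm
    omega

/-- A centroid. -/
theorem exists_centroid [Finite V] {T : SimpleGraph V} (hT : T.IsTree) :
    ∃ o, ∀ par, Rooted T o par (T.dist o) → ∀ v, v ≠ o →
      2 * (below par (T.dist o) v).ncard ≤ Nat.card V := by
  classical
  haveI := hT.connected.nonempty
  haveI := Fintype.ofFinite V
  obtain ⟨o, -, ho⟩ := Finset.exists_min_image (Finset.univ : Finset V)
    (fun o => ∑ w, T.dist o w) Finset.univ_nonempty
  refine ⟨o, ?_⟩
  intro par hR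
  have child : ∀ c, c ≠ o → par c = o → 2 * (below par (T.dist o) c).ncard ≤ Nat.card V := by
    intro c hc hp
    by_contra hlt
    rw [not_le] at hlt
    have h1 := ho c (Finset.mem_univ c)
    have hd : T.dist o c = 1 := by
      have := hR.dep_par c hc
      rw [hp] at this
      simpa using this
    -- pointwise comparison
    have h2 : ∀ w, T.dist c w + (if w ∈ below par (T.dist o) c then 2 else 0) ≤
        T.dist o w + 1 := by
      intro w
      split_ifs with hw
      · have h3 := dist_iterate hT hR (T.dist o w - T.dist o c) w (by omega)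
        rw [hw.2] at h3
        have h4 := hw.1
        omega
      · have h3 : T.dist c w ≤ T.dist c o + T.dist o w := hT.connected.dist_triangle
        rw [dist_comm (u := c) (v := o), hd] at h3
        omega
    have h3 := Finset.sum_le_sum (fun w (_ : w ∈ (Finset.univ : Finset V)) => h2 w)
    rw [Finset.sum_add_distrib, Finset.sum_add_distrib, Finset.sum_ite] at h3
    simp only [Finset.sum_const, smul_eq_mul, Finset.card_univ, Finset.sum_const_zero, add_zero,
      mul_one] at h3
    have h4 : (Finset.univ.filter (fun w => w ∈ below par (T.dist o) c)).card =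
        (below par (T.dist o) c).ncard := by
      rw [Set.ncard_eq_toFinset_card' (below par (T.dist o) c)]
      congr 1
      ext w
      simp
    rw [h4] at h3
    rw [Nat.card_eq_fintype_card] at hlt
    omega
  intro v
  induction h : T.dist o v using Nat.strong_induction_on generalizing v with
  | _ n ih =>
    intro hv
    by_cases hp : par v = o
    · exact child v hv hp
    · have h1 := hR.dep_par v hv
      have h2 := ih (T.dist o (par v)) (by omega) (par v) rfl hp
      have h3 := size_one hR hv
      omega

/-- A vertex order of a tree such that, off a centroid `o`, at most logarithmically many pairwise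
disjoint edges pass over a common cut. -/
theorem exists_log_order [Finite V] {T : SimpleGraph V} (hT : T.IsTree) :
    ∃ (o : V) (X : V → ℕ), Function.Injective X ∧ ∀ m (a b : Fin (m + 1) → V),
      (∀ i, T.Adj (a i) (b i)) → (∀ i j, X (a i) < X (b j)) → (∀ i j, i ≠ j → a i ≠ a j) →
      (∀ i j, i ≠ j → b i ≠ b j) → ∀ i, (∀ j, X (b j) ≤ X (b i)) → a i ≠ o →
      3 * 2 ^ m ≤ Nat.card V / 2 + 1 := by
  classical
  obtain ⟨r, hcen⟩ := exists_centroid hT
  obtain ⟨par, hR⟩ := exists_rooted hT r
  have hcen := hcen par hR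
  set dep := T.dist r with hdep
  set μ : V → ℕ := fun v => (below par dep v).ncard with hμ
  have μ2 : ∀ c c', c ≠ r → c' ≠ r → c ≠ c' → par c = par c' → μ c + μ c' + 1 ≤ μ (par c) :=
    fun c c' hc hc' hne hp => size_two hR hc hc' hne hp
  have μ1 : ∀ c, c ≠ r → μ c + 1 ≤ μ (par c) := fun c hc => size_one hR hc
  have μ0 : ∀ v, 1 ≤ μ v := fun v => by
    rw [Nat.one_le_iff_ne_zero]
    intro h
    have h1 : below par dep v = ∅ := (Set.ncard_eq_zero (Set.toFinite _)).1 h
    have := mem_below_self par dep v
    rw [h1] at this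
    exact this
  obtain ⟨X, hXi, hXr, hXp, hXg⟩ := sweep r par
    (fun S => r ∈ S ∧ ∀ c c', c ∉ S → c' ∉ S → par c ∈ S → par c' ∈ S → par c ≠ par c' →
      2 * μ (par c) + 1 ≤ μ (par c') ∨ 2 * μ (par c') + 1 ≤ μ (par c))
    (fun c' S => ∀ c, c ∉ S → par c ∈ S → par c ≠ par c' → 2 * μ (par c') + 1 ≤ μ (par c))
    (by
      refine ⟨rfl, ?_⟩
      intro c c' _ _ h1 h2 h3
      rw [Set.mem_singleton_iff] at h1 h2
      exact absurd (h1.trans h2.symm) h3)
    (by
      rintro S ⟨-, hS⟩ hr hne
      obtain ⟨c₀, hc₀, hpc₀⟩ := exists_pending hR S hr hne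
      obtain ⟨c₁, ⟨hc₁, hpc₁⟩, hm₁⟩ := Set.exists_min_image _ (fun c => μ (par c))
        (Set.toFinite {c | c ∉ S ∧ par c ∈ S}) ⟨c₀, hc₀, hpc₀⟩
      obtain ⟨c', ⟨hc', hpp⟩, hm'⟩ := Set.exists_min_image _ (fun c => μ c)
        (Set.toFinite {c | c ∉ S ∧ par c = par c₁}) ⟨c₁, hc₁, rfl⟩
      have hpc' : par c' ∈ S := by rw [hpp]; exact hpc₁
      have hc'r : c' ≠ r := fun h => hc' (h ▸ hr)
      have hgood : ∀ c, c ∉ S → par c ∈ S → par c ≠ par c' →
          2 * μ (par c') + 1 ≤ μ (par c) := by
        intro c hc hpc hne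
        have h1 := hm₁ c ⟨hc, hpc⟩
        rw [← hpp] at h1
        rcases hS c c' hc hc' hpc hpc' hne with h2 | h2
        · have := μ0 (par c)
          omega
        · exact h2
      refine ⟨c', hc', hpc', hgood, Set.mem_insert_of_mem _ hr, ?_⟩
      have hnew : ∀ c, c ∉ insert c' S → par c ∈ S → 2 * μ c' + 1 ≤ μ (par c) := by
        intro c hc hpc
        rw [Set.mem_insert_iff, not_or] at hc
        by_cases h1 : par c = par c'
        · have h2 := μ2 c' c hc'r (fun h => hc.2 (h ▸ hr)) (fun h => hc.1 h.symm) h1.symm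
          have h3 := hm' c ⟨hc.2, by rw [h1, hpp]⟩
          rw [h1]
          omega
        · have h2 := hgood c hc.2 hpc h1
          have h3 := μ1 c' hc'r
          omega
      intro c c'' hc hc'' hpc hpc'' hneq
      rcases Set.mem_insert_iff.1 hpc with h1 | h1
      · rcases Set.mem_insert_iff.1 hpc'' with h2 | h2
        · exact absurd (h1.trans h2.symm) hneq
        · left
          rw [h1]
          exact hnew c'' hc'' h2
      · rcases Set.mem_insert_iff.1 hpc'' with h2 | h2
        · right
          rw [h2]
          exact hnew c hc h1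
        · rw [Set.mem_insert_iff, not_or] at hc hc''
          exact hS c c'' hc.2 hc''.2 h1 h2 hneq)
  refine ⟨r, X, hXi, ?_⟩
  -- chains
  have chain : ∀ m (s : Finset V), s.card = m + 1 → (∀ b ∈ s, b ≠ r) →
      (∀ b ∈ s, ∀ b' ∈ s, X (par b) < X b') → (∀ b ∈ s, ∀ b' ∈ s, b ≠ b' → par b ≠ par b') →
      ∀ b ∈ s, (∀ b' ∈ s, X b' ≤ X b) → 3 * 2 ^ m ≤ μ (par b) + 1 := by
    intro m
    induction m with
    | zero =>
      intro s hs hr _ _ b hb _
      have h1 := μ1 b (hr b hb)
      have h2 := μ0 b
      omega
    | succ m ih =>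
      intro s hs hr hX hp b hb hmax
      have hne : (s.erase b).Nonempty := by
        rw [← Finset.card_pos, Finset.card_erase_of_mem hb]
        omega
      obtain ⟨b', hb', hmax'⟩ := Finset.exists_max_image (s.erase b) X hne
      have h3 := ih (s.erase b) (by rw [Finset.card_erase_of_mem hb]; omega)
        (fun x hx => hr x (Finset.mem_of_mem_erase hx))
        (fun x hx y hy => hX x (Finset.mem_of_mem_erase hx) y (Finset.mem_of_mem_erase hy))
        (fun x hx y hy => hp x (Finset.mem_of_mem_erase hx) y (Finset.mem_of_mem_erase hy))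
        b' hb' hmax'
      have hb's := Finset.mem_of_mem_erase hb'
      have hbb : b' ≠ b := (Finset.mem_erase.1 hb').1
      have h4 := hXg b' (hr b' hb's) b
        (by
          simp only [Set.mem_setOf_eq, not_lt]
          exact hmax b' hb's)
        (hX b hb b' hb's) (hp b hb b' hb's hbb.symm)
      rw [pow_succ]
      omega
  intro m a b hab hX ha hb i₀ hi₀ hai
  have hpar : ∀ i, b i ≠ r ∧ par (b i) = a i := fun i => par_of_lt hR hXp (hab i) (hX i i)
  have hinj : Function.Injective b := by
    intro i j h
    by_contra hij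
    exact hb i j hij h
  have h1 := chain m (Finset.univ.image b)
    (by rw [Finset.card_image_of_injective _ hinj, Finset.card_univ, Fintype.card_fin])
    (by
      intro v hv
      obtain ⟨i, -, rfl⟩ := Finset.mem_image.1 hv
      exact (hpar i).1)
    (by
      intro v hv w hw
      obtain ⟨i, -, rfl⟩ := Finset.mem_image.1 hv
      obtain ⟨j, -, rfl⟩ := Finset.mem_image.1 hw
      rw [(hpar i).2]
      exact hX i j)
    (by
      intro v hv w hw hvw
      obtain ⟨i, -, rfl⟩ := Finset.mem_image.1 hv
      obtain ⟨j, -, rfl⟩ := Finset.mem_image.1 hw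
      rw [(hpar i).2, (hpar j).2]
      exact ha i j (fun h => hvw (by rw [h])))
    (b i₀) (Finset.mem_image_of_mem b (Finset.mem_univ _))
    (by
      intro v hv
      obtain ⟨i, -, rfl⟩ := Finset.mem_image.1 hv
      exact hi₀ i)
  rw [(hpar i₀).2] at h1
  have h2 : 2 * μ (a i₀) ≤ Nat.card V := hcen (a i₀) hai
  omega

end Pool.Agent.Helper9.QP
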