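import Pool.Agent.Helper9.QP.Core

/-!
Graphs of pathwidth at most two have narrow vertex orders.
-/

namespace Pool.Agent.Helper9.QP

open SimpleGraph

variable {V : Type*}

/-- `G` has a path decomposition of width at most `k`: bags `B 0, …, B (m-1)` with at most `k + 1`
vertices each, such that every vertex is in a bag, both ends of every edge are in a common bag, and
the bags containing a given vertex are consecutive. -/
def HasPathwidthLE (G : SimpleGraph V) (k : ℕ) : Prop :=
  ∃ (m : ℕ) (B : Fin m → Finset V),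
    (∀ v, ∃ i, v ∈ B i) ∧ (∀ u v, G.Adj u v → ∃ i, u ∈ B i ∧ v ∈ B i) ∧
      (∀ v i j l, i ≤ j → j ≤ l → v ∈ B i → v ∈ B l → v ∈ B j) ∧ ∀ i, (B i).card ≤ k + 1

/-- From a path decomposition: an order in which the lower ends of the edges over a cut, together
with the first vertex after the cut, are in one bag. -/
theorem exists_order [Finite V] {G : SimpleGraph V} {k : ℕ} (hG : HasPathwidthLE G k) :
    ∃ Y : V → ℕ, Function.Injective Y ∧ ∀ w : V, ∃ B : Finset V, B.card ≤ k + 1 ∧ w ∈ B ∧
      ∀ a b, G.Adj a b → Y a < Y w → Y w ≤ Y b → a ∈ B := by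
  classical
  obtain ⟨m, B, h1, h2, h3, h4⟩ := hG
  have hex : ∀ v, ∃ i : Fin m, v ∈ B i ∧ ∀ j, v ∈ B j → i ≤ j := by
    intro v
    obtain ⟨i, hi, hmin⟩ := Set.exists_min_image {i : Fin m | v ∈ B i} (fun i => i)
      (Set.toFinite _) (h1 v)
    exact ⟨i, hi, fun j hj => hmin j hj⟩
  choose f hf hfmin using hex
  obtain ⟨n, ⟨φ⟩⟩ := Finite.exists_equiv_fin V
  have hY : ∀ u v, (f u : ℕ) * n + φ u < f v * n + φ v → f u ≤ f v := by
    intro u v h
    by_contra h5
    rw [not_le, Fin.lt_def] at h5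
    have h6 : ((f v : ℕ) + 1) * n ≤ f u * n := Nat.mul_le_mul_right n h5
    have h7 := (φ v).2
    have h8 : ((f v : ℕ) + 1) * n = f v * n + n := by ring
    omega
  refine ⟨fun v => f v * n + φ v, ?_, ?_⟩
  · intro u v h
    simp only at h
    have h5 : f u = f v := by
      rcases lt_trichotomy (f u) (f v) with h6 | h6 | h6
      · have h7 : ((f u : ℕ) + 1) * n ≤ f v * n := Nat.mul_le_mul_right n h6
        have h8 := (φ u).2
        have h9 : ((f u : ℕ) + 1) * n = f u * n + n := by ring
        omega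
      · exact h6
      · have h7 : ((f v : ℕ) + 1) * n ≤ f u * n := Nat.mul_le_mul_right n h6
        have h8 := (φ v).2
        have h9 : ((f v : ℕ) + 1) * n = f v * n + n := by ring
        omega
    rw [h5] at h
    exact φ.injective (Fin.ext (by omega))
  · intro w
    refine ⟨B (f w), h4 _, hf w, ?_⟩
    intro a b hab h5 h6
    obtain ⟨i, hia, hib⟩ := h2 a b hab
    have e1 : f a ≤ f w := hY a w h5
    have e2 : f w ≤ f b := by
      rcases h6.lt_or_eq with h7 | h7
      · exact hY w b h7
      · have h7' : (f w : ℕ) * n + φ w = f b * n + φ b := h7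
        by_contra h8
        rw [not_le, Fin.lt_def] at h8
        have h9 : ((f b : ℕ) + 1) * n ≤ f w * n := Nat.mul_le_mul_right n h8
        have h10 := (φ b).2
        have h11 : ((f b : ℕ) + 1) * n = f b * n + n := by ring
        omega
    exact h3 a (f a) (f w) i e1 (e2.trans (hfmin b i hib)) (hf a) hia

theorem narrow_of_pathwidth [Finite V] [Nonempty V] {G : SimpleGraph V}
    (hG : HasPathwidthLE G 2) : ∃ o Y, Narrow G o Y := by
  classical
  obtain ⟨Y, hYi, hB⟩ := exists_order hG
  obtain ⟨o, -, ho⟩ := Set.exists_min_image (Set.univ : Set V) Y (Set.toFinite _) Set.univ_nonempty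
  refine ⟨o, Y, hYi, fun v hv => lt_of_le_of_ne (ho v trivial) (fun h => hv (hYi h).symm), ?_⟩
  intro a₁ b₁ a₂ b₂ a₃ b₃ e1 e2 e3 h12 h13 h23 l1 l2 l3 l4 l5
  exfalso
  obtain ⟨B, hc, hw, hB⟩ := hB b₃
  have m1 := hB a₁ b₁ e1 l3 (by omega)
  have m2 := hB a₂ b₂ e2 l4 (by omega)
  have m3 := hB a₃ b₃ e3 l5 le_rfl
  have hsub : ({a₁, a₂, a₃, b₃} : Finset V) ⊆ B := by
    intro x hx
    simp only [Finset.mem_insert, Finset.mem_singleton] at hx
    rcases hx with rfl | rfl | rfl | rfl <;> assumption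
  have hcard : ({a₁, a₂, a₃, b₃} : Finset V).card = 4 := by
    have n1 : a₁ ≠ b₃ := by rintro rfl; exact lt_irrefl _ l3
    have n2 : a₂ ≠ b₃ := by rintro rfl; exact lt_irrefl _ l4
    have n3 : a₃ ≠ b₃ := by rintro rfl; exact lt_irrefl _ l5
    rw [Finset.card_insert_of_notMem, Finset.card_insert_of_notMem, Finset.card_insert_of_notMem,
      Finset.card_singleton]
    · simpa using n3
    · simpa using ⟨h23, n2⟩
    · simpa using ⟨h12, h13, n1⟩
  have := Finset.card_le_card hsub
  omega

end Pool.Agent.Helper9.QP
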