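import Pool.Agent.Helper9.QP.Core

/-!
Trees of small rank have narrow vertex orders.
-/

namespace Pool.Agent.Helper9.QP

open SimpleGraph

variable {V : Type*}

/-- In the tree `T` rooted at `o`, the vertex `c` is a child of the vertex `v`. -/
def IsChild (T : SimpleGraph V) (o v c : V) : Prop :=
  T.Adj v c ∧ T.dist o c = T.dist o v + 1

/-- Apart from the root `o`, the tree `T` rooted at `o` has rank at most two: there is a rank
function `ρ` with values in `{0, 1, 2}` on the vertices different from `o` such that a vertex with a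
child has rank at least one, a child has at most the rank of its parent, and at most one child of a
vertex has the same rank as that vertex. -/
def RankTwo (T : SimpleGraph V) (o : V) : Prop :=
  ∃ ρ : V → ℕ, ∀ v, v ≠ o → ρ v ≤ 2 ∧ (∀ c, IsChild T o v c → 1 ≤ ρ v ∧ ρ c ≤ ρ v) ∧
    ∀ c c', IsChild T o v c → IsChild T o v c' → ρ c = ρ v → ρ c' = ρ v → c = c'

theorem narrow_of_rank [Finite V] {T : SimpleGraph V} (hT : T.IsTree) {o : V}
    (h : RankTwo T o) : ∃ Y, Narrow T o Y := by
  classical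
  obtain ⟨ρ, hρ⟩ := h
  obtain ⟨par, hR⟩ := exists_rooted hT o
  have hchild : ∀ c, c ≠ o → IsChild T o (par c) c := fun c hc =>
    ⟨(hR.adj_par c hc).symm, hR.dep_par c hc⟩
  -- the measure
  set μ : V → ℕ := fun v => if v = o then 3 else ρ v with hμ
  have μo : μ o = 3 := by simp [hμ]
  have μn : ∀ v, v ≠ o → μ v = ρ v := fun v hv => by simp [hμ, hv]
  have μle : ∀ v, v ≠ o → μ v ≤ 2 := fun v hv => by rw [μn v hv]; exact (hρ v hv).1
  have μle3 : ∀ v, μ v ≤ 3 := fun v => by
    by_cases hv : v = o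
    · rw [hv, μo]
    · have := μle v hv
      omega
  have μc : ∀ c, c ≠ o → μ c ≤ μ (par c) := by
    intro c hc
    by_cases hp : par c = o
    · rw [hp, μo]
      exact μle3 c
    · rw [μn c hc, μn _ hp]
      exact ((hρ _ hp).2.1 c (hchild c hc)).2
  have μc2 : ∀ c c', c ≠ o → c' ≠ o → c ≠ c' → par c = par c' → μ c ≤ μ c' →
      μ c < μ (par c) := by
    intro c c' hc hc' hcc hpp hle
    by_cases hp : par c = o
    · rw [hp, μo]
      have := μle c hc
      omega
    · by_contra hlt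
      have h1 := μc c hc
      have h2 := μc c' hc'
      rw [← hpp] at h2
      have h3 : μ c = μ (par c) := by omega
      have h4 : μ c' = μ (par c) := by omega
      rw [μn c hc, μn _ hp] at h3
      rw [μn c' hc', μn _ hp] at h4
      have h5 := hchild c' hc'
      rw [← hpp] at h5
      exact hcc ((hρ _ hp).2.2 c c' (hchild c hc) h5 h3 h4)
  have μ1 : ∀ c, c ≠ o → 1 ≤ μ (par c) := by
    intro c hc
    by_cases hp : par c = o
    · rw [hp, μo]
      omega
    · rw [μn _ hp]
      exact ((hρ _ hp).2.1 c (hchild c hc)).1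
  obtain ⟨Y, hYi, hYo, hYp, hYg⟩ := sweep o par
    (fun S => o ∈ S ∧ ∀ c c', c ∉ S → c' ∉ S → par c ∈ S → par c' ∈ S →
      μ (par c) = μ (par c') → par c = par c')
    (fun c' S => ∀ c, c ∉ S → par c ∈ S → par c ≠ par c' → μ (par c') < μ (par c))
    (by
      refine ⟨rfl, ?_⟩
      intro c c' _ _ h1 h2 _
      rw [Set.mem_singleton_iff] at h1 h2
      rw [h1, h2])
    (by
      rintro S ⟨-, hS⟩ hr hne
      obtain ⟨c₀, hc₀, hpc₀⟩ := exists_pending hR S hr hne
      obtain ⟨c₁, ⟨hc₁, hpc₁⟩, hm₁⟩ := Set.exists_min_image _ (fun c => μ (par c))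
        (Set.toFinite {c | c ∉ S ∧ par c ∈ S}) ⟨c₀, hc₀, hpc₀⟩
      obtain ⟨c', ⟨hc', hpp⟩, hm'⟩ := Set.exists_min_image _ (fun c => μ c)
        (Set.toFinite {c | c ∉ S ∧ par c = par c₁}) ⟨c₁, hc₁, rfl⟩
      have hpc' : par c' ∈ S := by rw [hpp]; exact hpc₁
      have hc'o : c' ≠ o := fun h => hc' (h ▸ hr)
      have hgood : ∀ c, c ∉ S → par c ∈ S → par c ≠ par c' → μ (par c') < μ (par c) := by
        intro c hc hpc hne
        have h1 := hm₁ c ⟨hc, hpc⟩
        rw [← hpp] at h1
        refine lt_of_le_of_ne h1 (fun h2 => hne (hS c c' hc hc' hpc hpc' h2.symm))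
      refine ⟨c', hc', hpc', hgood, Set.mem_insert_of_mem _ hr, ?_⟩
      have hnew : ∀ c, c ∉ insert c' S → par c ∈ S → μ c' < μ (par c) := by
        intro c hc hpc
        rw [Set.mem_insert_iff, not_or] at hc
        by_cases h1 : par c = par c'
        · rw [h1]
          refine μc2 c' c hc'o (fun h => hc.2 (h ▸ hr)) (fun h => hc.1 h.symm) h1.symm ?_
          exact hm' c ⟨hc.2, by rw [h1, hpp]⟩
        · exact lt_of_le_of_lt (μc c' hc'o) (hgood c hc.2 hpc h1)
      intro c c'' hc hc'' hpc hpc'' heq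
      rcases Set.mem_insert_iff.1 hpc with h1 | h1
      · rcases Set.mem_insert_iff.1 hpc'' with h2 | h2
        · rw [h1, h2]
        · have := hnew c'' hc'' h2
          rw [h1] at heq
          omega
      · rcases Set.mem_insert_iff.1 hpc'' with h2 | h2
        · have := hnew c hc h1
          rw [h2] at heq
          omega
        · rw [Set.mem_insert_iff, not_or] at hc hc''
          exact hS c c'' hc.2 hc''.2 h1 h2 heq)
  refine ⟨Y, hYi, hYo, ?_⟩
  intro a₁ b₁ a₂ b₂ a₃ b₃ e1 e2 e3 h12 h13 h23 l1 l2 l3 l4 l5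
  left
  obtain ⟨hb1, p1⟩ := par_of_lt hR hYp e1 (by omega)
  obtain ⟨hb2, p2⟩ := par_of_lt hR hYp e2 (by omega)
  obtain ⟨hb3, p3⟩ := par_of_lt hR hYp e3 l5
  have g23 := hYg b₃ hb3 b₂ (by simp only [Set.mem_setOf_eq]; omega)
    (by rw [p2]; exact l4) (by rw [p2, p3]; exact h23)
  have g12 := hYg b₂ hb2 b₁ (by simp only [Set.mem_setOf_eq]; omega)
    (by rw [p1]; exact lt_trans l3 l1) (by rw [p1, p2]; exact h12)
  rw [p1, p2] at g12
  rw [p2, p3] at g23
  have g3 := μ1 b₃ hb3
  rw [p3] at g3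
  by_contra ha
  have := μle a₁ ha
  omega

/-- Trees of radius at most three. -/
theorem rank_of_radius {T : SimpleGraph V} (hT : T.IsTree) {o : V} (h : ∀ v, T.dist o v ≤ 3) :
    RankTwo T o := by
  refine ⟨fun v => 3 - T.dist o v, ?_⟩
  intro v hv
  have hd : 0 < T.dist o v := (hT.connected o v).pos_dist_of_ne (Ne.symm hv)
  refine ⟨by simp only; omega, ?_, ?_⟩
  · rintro c ⟨-, hc⟩
    have := h c
    simp only
    omega
  · rintro c c' ⟨-, hc⟩ ⟨-, hc'⟩ h1 h2
    have := h c
    simp only at h1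
    omega

end Pool.Agent.Helper9.QP
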