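import Mathlib

/-!
Rooted trees and sweeps: a parent first order of a rooted tree built by a choice rule.
-/

namespace Pool.Agent.Helper9.QP

open SimpleGraph

variable {V : Type*}

/-- `par` and `dep` are the parent function and the depth of the tree `T` rooted at `r`. -/
structure Rooted (T : SimpleGraph V) (r : V) (par : V → V) (dep : V → ℕ) : Prop where
  adj_par : ∀ v, v ≠ r → T.Adj v (par v)
  dep_par : ∀ v, v ≠ r → dep v = dep (par v) + 1
  adj_imp : ∀ u v, T.Adj u v → (v ≠ r ∧ par v = u) ∨ (u ≠ r ∧ par u = v)
  dep_root : dep r = 0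

theorem dist_unique {T : SimpleGraph V} (hT : T.IsTree) (r v w₁ w₂ : V)
    (h₁ : T.Adj v w₁) (h₂ : T.Adj v w₂) (d₁ : T.dist r v = T.dist r w₁ + 1)
    (d₂ : T.dist r v = T.dist r w₂ + 1) : w₁ = w₂ := by
  classical
  obtain ⟨p, hp, hp'⟩ := (hT.connected r v).exists_path_of_dist
  have key : ∀ w, T.Adj v w → T.dist r v = T.dist r w + 1 → w ∈ p.support := by
    intro w hw hd
    obtain ⟨q, hq, hq'⟩ := (hT.connected r w).exists_path_of_dist
    refine hT.isAcyclic.mem_support_of_ne_mem_support_of_adj_of_isPath hp hq hw ?_
    intro hv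
    have h1 : T.dist r v ≤ (q.takeUntil v hv).length := dist_le _
    have h2 : (q.takeUntil v hv).length ≤ q.length := q.length_takeUntil_le hv
    omega
  rw [hT.isAcyclic.eq_penultimate_of_adj_end hp h₁ (key w₁ h₁ d₁),
    hT.isAcyclic.eq_penultimate_of_adj_end hp h₂ (key w₂ h₂ d₂)]

theorem exists_closer {T : SimpleGraph V} (hT : T.IsTree) (r v : V) (hv : v ≠ r) :
    ∃ w, T.Adj v w ∧ T.dist r v = T.dist r w + 1 := by
  obtain ⟨p, hp'⟩ := (hT.connected v r).exists_walk_length_eq_dist
  cases p with
  | nil => exact absurd rfl hv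
  | @cons _ w _ h q =>
    refine ⟨w, h, ?_⟩
    have h1 : T.dist w r ≤ q.length := dist_le _
    rw [Walk.length_cons] at hp'
    rcases hT.dist_eq_dist_add_one_of_adj r h with h2 | h2
    · exact h2
    · rw [dist_comm] at h1
      rw [dist_comm (u := v)] at hp'
      omega

theorem exists_rooted {T : SimpleGraph V} (hT : T.IsTree) (r : V) :
    ∃ par, Rooted T r par (T.dist r) := by
  classical
  choose! par hpar using fun v (hv : v ≠ r) => exists_closer hT r v hv
  refine ⟨par, ⟨fun v hv => (hpar v hv).1, fun v hv => (hpar v hv).2, ?_, by simp⟩⟩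
  intro u v huv
  rcases hT.dist_eq_dist_add_one_of_adj r huv with h | h
  · right
    have hu : u ≠ r := by
      rintro rfl
      simp at h
    exact ⟨hu, dist_unique hT r u _ _ (hpar u hu).1 huv (hpar u hu).2 h⟩
  · left
    have hv : v ≠ r := by
      rintro rfl
      simp at h
    exact ⟨hv, dist_unique hT r v _ _ (hpar v hv).1 huv.symm (hpar v hv).2 h⟩

/-- The sweep lemma.  `Inv` is an invariant of the set of placed vertices, `Good c S` is the rule
that the vertex `c` placed next after the set `S` has to satisfy. -/
theorem sweep [Finite V] (r : V) (par : V → V) (Inv : Set V → Prop) (Good : V → Set V → Prop)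
    (h0 : Inv {r})
    (hstep : ∀ S, Inv S → r ∈ S → S ≠ Set.univ →
      ∃ c, c ∉ S ∧ par c ∈ S ∧ Good c S ∧ Inv (insert c S)) :
    ∃ Y : V → ℕ, Function.Injective Y ∧ (∀ v, v ≠ r → Y r < Y v) ∧
      (∀ v, v ≠ r → Y (par v) < Y v) ∧ ∀ v, v ≠ r → Good v {w | Y w < Y v} := by
  classical
  have main : ∀ n (S : Set V), Inv S → r ∈ S → (Sᶜ).ncard = n →
      ∃ Y : V → ℕ, (∀ s ∈ S, Y s = 0) ∧ (∀ v, v ∉ S → 0 < Y v) ∧
        (∀ v w, v ∉ S → w ∉ S → Y v = Y w → v = w) ∧ (∀ v, v ∉ S → Y (par v) < Y v) ∧
        ∀ v, v ∉ S → Good v {w | Y w < Y v} := by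
    intro n
    induction n with
    | zero =>
      intro S hS hr hn
      have hu : ∀ v, v ∈ S := by
        rw [Set.ncard_eq_zero] at hn
        intro v
        by_contra hv
        have : v ∈ Sᶜ := hv
        rw [hn] at this
        exact this
      exact ⟨fun _ => 0, fun _ _ => rfl, fun v hv => absurd (hu v) hv,
        fun v _ hv => absurd (hu v) hv, fun v hv => absurd (hu v) hv,
        fun v hv => absurd (hu v) hv⟩
    | succ n ih =>
      intro S hS hr hn
      have hne : S ≠ Set.univ := by
        rintro rfl
        simp at hn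
      obtain ⟨c, hc, hpc, hgc, hic⟩ := hstep S hS hr hne
      have hcard : ((insert c S)ᶜ).ncard = n := by
        have h1 : (insert c S)ᶜ = Sᶜ \ {c} := by
          ext x
          simp only [Set.mem_compl_iff, Set.mem_insert_iff, not_or, Set.mem_diff,
            Set.mem_singleton_iff]
          tauto
        rw [h1, Set.ncard_diff_singleton_of_mem (by exact hc)]
        omega
      obtain ⟨Y, y1, y2, y3, y4, y5⟩ := ih (insert c S) hic (Set.mem_insert_of_mem _ hr) hcard
      have hYc : Y c = 0 := y1 c (Set.mem_insert _ _)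
      have hYS : ∀ s ∈ S, Y s = 0 := fun s hs => y1 s (Set.mem_insert_of_mem _ hs)
      have hout : ∀ v, v ∉ S → v ≠ c → v ∉ insert c S := by
        intro v hv hvc h
        rcases Set.mem_insert_iff.1 h with h | h
        · exact hvc h
        · exact hv h
      refine ⟨fun v => if v ∈ S then 0 else Y v + 1, fun s hs => by simp [hs],
        fun v hv => by simp [hv], ?_, ?_, ?_⟩
      · intro v w hv hw h
        simp only [hv, hw, if_false, add_left_inj] at h
        by_cases hvc : v = c
        · by_cases hwc : w = c
          · rw [hvc, hwc]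
          · have := y2 w (hout w hw hwc)
            rw [hvc, hYc] at h
            omega
        · by_cases hwc : w = c
          · have := y2 v (hout v hv hvc)
            rw [hwc, hYc] at h
            omega
          · exact y3 v w (hout v hv hvc) (hout w hw hwc) h
      · intro v hv
        simp only [hv, if_false]
        split_ifs with h
        · omega
        · by_cases hvc : v = c
          · rw [hvc] at h
            exact absurd hpc h
          · have := y4 v (hout v hv hvc)
            omega
      · intro v hv
        by_cases hvc : v = c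
        · subst hvc
          have h1 : {w | (if w ∈ S then 0 else Y w + 1) < (if v ∈ S then 0 else Y v + 1)} = S := by
            ext w
            simp only [hv, if_false, hYc, Set.mem_setOf_eq]
            split_ifs with h <;> simp [h]
          rw [h1]
          exact hgc
        · have h1 : {w | (if w ∈ S then 0 else Y w + 1) < (if v ∈ S then 0 else Y v + 1)} =
              {w | Y w < Y v} := by
            ext w
            simp only [hv, if_false, Set.mem_setOf_eq]
            have h2 := y2 v (hout v hv hvc)
            split_ifs with h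
            · rw [hYS w h]
              simp [h2]
            · simp
          rw [h1]
          exact y5 v (hout v hv hvc)
  obtain ⟨Y, y1, y2, y3, y4, y5⟩ := main _ {r} h0 rfl rfl
  have hr : Y r = 0 := y1 r rfl
  refine ⟨Y, ?_, fun v hv => ?_, fun v hv => y4 v hv, fun v hv => y5 v hv⟩
  · intro v w h
    by_cases hv : v = r
    · by_cases hw : w = r
      · rw [hv, hw]
      · have := y2 w hw
        rw [hv, hr] at h
        omega
    · by_cases hw : w = r
      · have := y2 v hv
        rw [hw, hr] at h
        omega
      · exact y3 v w hv hw h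
  · rw [hr]
    exact y2 v hv

/-- Down closed sets of a rooted tree. -/
def Down (r : V) (par : V → V) (S : Set V) : Prop := ∀ v ∈ S, v ≠ r → par v ∈ S

theorem down_insert {r : V} {par : V → V} {S : Set V} (h : Down r par S) {c : V}
    (hc : par c ∈ S) : Down r par (insert c S) := by
  intro v hv hvr
  rcases Set.mem_insert_iff.1 hv with rfl | hv
  · exact Set.mem_insert_of_mem _ hc
  · exact Set.mem_insert_of_mem _ (h v hv hvr)

theorem exists_pending {T : SimpleGraph V} {r : V} {par : V → V} {dep : V → ℕ}
    (hR : Rooted T r par dep) (S : Set V) (hr : r ∈ S) (hS : S ≠ Set.univ) :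
    ∃ c, c ∉ S ∧ par c ∈ S := by
  classical
  have h1 : ∃ n, ∃ c, c ∉ S ∧ dep c = n := by
    obtain ⟨c, hc⟩ := (Set.ne_univ_iff_exists_notMem S).1 hS
    exact ⟨dep c, c, hc, rfl⟩
  obtain ⟨c, hc, hd⟩ := Nat.find_spec h1
  refine ⟨c, hc, ?_⟩
  by_contra hp
  have hcr : c ≠ r := fun h => hc (h ▸ hr)
  have h2 := hR.dep_par c hcr
  exact Nat.find_min h1 (m := dep (par c)) (by omega) ⟨par c, hp, rfl⟩

end Pool.Agent.Helper9.QP
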